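import Pool.Agent.Lib.MP_5fa4f2_an.Cont

set_option autoImplicit false

open Pool.Agent.Lib.MP_5fa4f2_an Filter Topology

namespace Pool.Agent.Lib.MP_5fa4f2_an.Old.ContinuousPair

/-- The comparison principle fails on the torus `C^n / (Z + iZ)^n`, in every dimension, for
`T = 1`, the flat Kahler form, `F = 0` and a smooth density `m ≥ 0`, positive everywhere at almost
every time and never identically zero in space, already for a continuous subsolution and a
continuous supersolution that are smooth in space. -/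
theorem result (n : ℕ) (hn : 0 < n) :
    ∃ m u v : ℝ → (Fin n → ℂ) → ℝ,
      OnTorus m ∧ OnTorus u ∧ OnTorus v ∧
      ContDiff ℝ ((⊤ : ℕ∞) : WithTop ℕ∞) (fun p : ℝ × (Fin n → ℂ) => m p.1 p.2) ∧
      (∀ t x, 0 ≤ m t x ∧ m t x ≤ 1) ∧
      (∀ᵐ t, ∀ x, 0 < m t x) ∧
      (∀ t, ∃ x, 0 < m t x) ∧
      Continuous (fun p : ℝ × (Fin n → ℂ) => u p.1 p.2) ∧
      Continuous (fun p : ℝ × (Fin n → ℂ) => v p.1 p.2) ∧
      (∀ t, ContDiff ℝ ((⊤ : ℕ∞) : WithTop ℕ∞) (u t) ∧
        ContDiff ℝ ((⊤ : ℕ∞) : WithTop ℕ∞) (v t)) ∧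
      (∃ C : ℝ, ∀ t ∈ Set.Ico (0 : ℝ) 1, ∀ x, |u t x| ≤ C ∧ |v t x| ≤ C) ∧
      IsSub 1 (fun _ _ => 1) (fun _ _ _ => 0) m u ∧
      IsSuper 1 (fun _ _ => 1) (fun _ _ _ => 0) m v ∧
      (∀ x, u 0 x = v 0 x) ∧
      ∃ t ∈ Set.Ioo (0 : ℝ) 1, ∃ x, v t x < u t x := by
  let i : Fin n := ⟨0, hn⟩
  obtain ⟨c, h1, h2, hc, hh1, hh2, hb⟩ := exists_h
  obtain ⟨g, φ, w, gc, φc, ws, g0, φ0, φ1, w1, wa, hloc, hcon, t₁, ht₁, hlt⟩ :=
    exists_time (A := n + 1) (by linarith [Nat.cast_nonneg (α := ℝ) n]) hc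
  have a0 : ∀ s, 0 ≤ aa s := fun s => Real.smoothTransition.nonneg _
  have a1 : ∀ s, aa s ≤ 1 := fun s => Real.smoothTransition.le_one _
  have b0 : ∀ s, 0 ≤ bb s := fun s => Real.smoothTransition.nonneg _
  have b1 : ∀ s, bb s ≤ 1 := fun s => Real.smoothTransition.le_one _
  have re : ContDiff ℝ ((⊤ : ℕ∞) : WithTop ℕ∞) fun x : Fin n → ℂ => (x i).re :=
    Complex.reCLM.contDiff.comp (by fun_prop)
  have mle : ∀ t s, w t + (1 / 2) ^ (n + 1) * aa s ≤ (1 / 2) ^ n := fun t s => by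
    have e1 : Real.exp (-((n : ℝ) + 1)) ≤ (1 / 2) ^ (n + 1) := by
      rw [show -((n : ℝ) + 1) = ((n + 1 : ℕ) : ℝ) * (-1) by push_cast; ring, Real.exp_nat_mul]
      exact pow_le_pow_left₀ (Real.exp_pos _).le (Real.exp_neg_one_lt_half).le _
    have e2 := mul_le_of_le_one_right (show (0 : ℝ) ≤ (1 / 2) ^ (n + 1) by positivity) (a1 s)
    have e3 : (1 / 2 : ℝ) ^ (n + 1) = (1 / 2) ^ n * (1 / 2) := pow_succ _ _
    linarith [(w1 t).2]
  refine ⟨fun t x => w t + (1 / 2) ^ (n + 1) * aa (x i).re, fun t x => φ t * (c * bb (x i).re),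
    fun t _ => g t, fun t x a b => by simp [aa_int], fun t x a b => by simp [bb_int],
    fun _ _ _ _ => rfl, (ws.comp contDiff_fst).add
      (contDiff_const.mul (aa_contDiff.comp (re.comp contDiff_snd))),
    fun t x => ⟨add_nonneg (w1 t).1 (mul_nonneg (by positivity) (a0 _)),
      (mle _ _).trans (pow_le_one₀ (by norm_num) (by norm_num))⟩,
    wa.mono fun t ht x => add_pos_of_pos_of_nonneg ht (mul_nonneg (by positivity) (a0 _)),
    fun t => ⟨fun _ => ((1 / 4 : ℝ) : ℂ), ?_⟩,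
    (φc.comp continuous_fst).mul (continuous_const.mul
      ((bb_contDiff (k := 0)).continuous.comp (by fun_prop))), gc.comp continuous_fst,
    fun t => ⟨contDiff_const.mul (contDiff_const.mul (bb_contDiff.comp re)), contDiff_const⟩,
    ?_, fun t _ x q hq hmax => ?_, fun t _ x q hq hmin => ?_, fun x => by simp [φ0, g0],
    t₁, ht₁, fun _ => ((-(1 / 4) : ℝ) : ℂ), ?_⟩
  · simp only [Complex.ofReal_re, aa_quarter]
    exact add_pos_of_nonneg_of_pos (w1 t).1 (by positivity)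
  · obtain ⟨C, hC⟩ := (isCompact_Icc (a := (0 : ℝ)) (b := 1)).exists_bound_of_continuousOn
      gc.continuousOn
    refine ⟨max C c, fun t ht x => ⟨le_max_of_le_right ?_, le_max_of_le_left
      (hC t ⟨ht.1, ht.2.le⟩)⟩⟩
    have := mul_nonneg hc.le (b0 (x i).re)
    rw [abs_of_nonneg (mul_nonneg (φ1 t).1 this)]
    exact (mul_le_of_le_one_left this (φ1 t).2).trans (mul_le_of_le_one_right hc.le (b1 _))
  · have hx := sub_contact hq.2 i (fun s => (hh1 s).const_mul (φ t))
      (fun s => (hh2 s).const_mul (φ t)) (fun s => by nlinarith [hb s, φ1 t]) (slice_x hmax)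
    refine ⟨hx.1, le_trans ?_ hx.2⟩
    by_cases hm : w t + (1 / 2) ^ (n + 1) * aa (x i).re = 0
    · simp only [hm, mul_zero]; positivity
    have hconst : ∀ᶠ s in 𝓝 t, φ s * (c * bb (x i).re) = φ t * (c * bb (x i).re) := by
      by_cases hw : w t = 0
      · have ha : aa (x i).re ≠ 0 := fun h0 => hm (by simp [hw, h0])
        exact Eventually.of_forall fun s => by simp [(bb_zero_near ha).self_of_nhds]
      · exact (hloc t hw).mono fun s hs => by rw [hs]
    have ht1 : IsLocalMax (fun s => φ t * (c * bb (x i).re) - q s x) t :=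
      (slice_t hmax).congr (hconst.mono fun s hs => by simp only [hs])
    have hd : deriv (fun s => q s x) t = 0 := by
      simpa using ht1.hasDerivAt_eq_zero (hq.1.hasDerivAt.const_sub _)
    simp only [hd, add_zero, Real.exp_zero, one_mul]
    exact mle _ _
  · have hs : IsLocalMax (q t) x := by
      simpa using (slice_x hmin.neg).add (isMaxFilter_const (b := g t))
    refine (super_contact hq.2 hs).trans ((hcon _ t hq.1 ?_).trans ?_)
    · simpa using (slice_t hmin.neg).neg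
    · rw [add_zero]
      exact mul_le_mul_of_nonneg_left (le_add_of_nonneg_right (mul_nonneg (by positivity) (a0 _)))
        (Real.exp_pos _).le
  · simpa only [Complex.ofReal_re, bb_quarter, mul_one] using hlt

end Pool.Agent.Lib.MP_5fa4f2_an.Old.ContinuousPair
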